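import Pool.Agent.H60.SYM.Targets

namespace Pool.Agent.H19.SYM

open Finset Pool.Agent.H60.SYM

theorem bin : T_BIN := by
  intro N t hN
  have hN' : (0 : ℝ) < N := by exact_mod_cast hN
  set q : ℝ := Real.exp (-(2 * t / N)) with hq
  have hq0 : 0 < q := Real.exp_pos _
  -- the basic estimate
  have key : ∀ i : ℕ, 2 * i ≤ N → |(N : ℝ) - 2 * i| ^ t ≤ (N : ℝ) ^ t * q ^ i := by
    intro i hi
    have hi' : (2 * i : ℝ) ≤ N := by exact_mod_cast hi
    have h0 : 0 ≤ 1 - 2 * (i : ℝ) / N := by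
      rw [sub_nonneg, div_le_one hN']
      exact hi'
    have h1 : 1 - 2 * (i : ℝ) / N ≤ Real.exp (-(2 * i / N)) := by
      have := Real.add_one_le_exp (-(2 * (i : ℝ) / N))
      linarith
    have e1 : (N : ℝ) - 2 * i = N * (1 - 2 * (i : ℝ) / N) := by
      field_simp
    rw [abs_of_nonneg (by linarith), e1, mul_pow]
    refine mul_le_mul_of_nonneg_left ?_ (by positivity)
    calc (1 - 2 * (i : ℝ) / N) ^ t ≤ (Real.exp (-(2 * i / N))) ^ t :=
          pow_le_pow_left₀ h0 h1 t
      _ = q ^ i := by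
          rw [hq, ← Real.exp_nat_mul, ← Real.exp_nat_mul]
          congr 1
          ring
  have step : ∀ i ∈ range (N + 1), (N.choose i : ℝ) * |(N : ℝ) - 2 * i| ^ t ≤
      (N : ℝ) ^ t * ((N.choose i : ℝ) * q ^ i) +
        (N : ℝ) ^ t * ((N.choose (N - i) : ℝ) * q ^ (N - i)) := by
    intro i hi
    have hiN : i ≤ N := Nat.lt_succ_iff.mp (mem_range.mp hi)
    have hp1 : 0 ≤ (N : ℝ) ^ t * ((N.choose i : ℝ) * q ^ i) := by positivity
    have hp2 : 0 ≤ (N : ℝ) ^ t * ((N.choose (N - i) : ℝ) * q ^ (N - i)) := by positivity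
    rcases le_total (2 * i) N with h | h
    · have := mul_le_mul_of_nonneg_left (key i h) (Nat.cast_nonneg (α := ℝ) (N.choose i))
      linarith
    · have h2 : 2 * (N - i) ≤ N := by omega
      have h3 := key (N - i) h2
      have e2 : (N : ℝ) - 2 * ((N - i : ℕ) : ℝ) = -((N : ℝ) - 2 * i) := by
        push_cast [hiN]
        ring
      rw [e2, abs_neg] at h3
      have h4 := mul_le_mul_of_nonneg_left h3 (Nat.cast_nonneg (α := ℝ) (N.choose i))
      rw [Nat.choose_symm hiN]
      rw [Nat.choose_symm hiN] at hp2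
      linarith
  refine (sum_le_sum step).trans ?_
  rw [sum_add_distrib, ← mul_sum, ← mul_sum]
  have s1 : ∑ i ∈ range (N + 1), (N.choose i : ℝ) * q ^ i = (1 + q) ^ N := by
    rw [add_comm 1 q, add_pow]
    refine sum_congr rfl (fun i _ => ?_)
    rw [one_pow, mul_one, mul_comm]
  have s2 : ∑ i ∈ range (N + 1), (N.choose (N - i) : ℝ) * q ^ (N - i) = (1 + q) ^ N := by
    rw [← s1, ← sum_range_reflect]
    refine sum_congr rfl (fun i hi => ?_)
    have hiN : i ≤ N := Nat.lt_succ_iff.mp (mem_range.mp hi)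
    have : N - (N + 1 - 1 - i) = i := by omega
    rw [this]
  rw [s1, s2]
  linarith

end Pool.Agent.H19.SYM
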