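import Pool.Agent.H60.SYM.Targets

namespace Pool.Agent.H19.SYM

open Finset Filter Pool.Agent.H60.SYM

theorem choose_ratio (n : ℕ) : ∀ (r t : ℕ), n ≤ 4 * t + 3 →
    n.choose (t + r) ≤ 3 ^ r * n.choose t := by
  intro r
  induction r with
  | zero => intro t _; simp
  | succ r ih =>
    intro t ht
    have h1 := ih t ht
    have h2 : n.choose (t + r + 1) * (t + r + 1) = n.choose (t + r) * (n - (t + r)) :=
      Nat.choose_succ_right_eq n (t + r)
    have h3 : n - (t + r) ≤ 3 * (t + r + 1) := by omega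
    have h4 : n.choose (t + r + 1) * (t + r + 1) ≤ (3 * n.choose (t + r)) * (t + r + 1) := by
      rw [h2]
      calc n.choose (t + r) * (n - (t + r)) ≤ n.choose (t + r) * (3 * (t + r + 1)) :=
            Nat.mul_le_mul_left _ h3
        _ = (3 * n.choose (t + r)) * (t + r + 1) := by ring
    have h5 : n.choose (t + r + 1) ≤ 3 * n.choose (t + r) :=
      Nat.le_of_mul_le_mul_right h4 (Nat.succ_pos _)
    calc n.choose (t + (r + 1)) ≤ 3 * n.choose (t + r) := h5
      _ ≤ 3 * (3 ^ r * n.choose t) := Nat.mul_le_mul_left _ h1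
      _ = 3 ^ (r + 1) * n.choose t := by ring

theorem middle (n : ℕ) : 2 ^ n ≤ (n + 1) * n.choose (n / 2) := by
  rw [← Nat.sum_range_choose]
  refine (Finset.sum_le_card_nsmul _ _ (n.choose (n / 2)) (fun i _ => Nat.choose_le_middle i n)).trans
    ?_
  rw [card_range, smul_eq_mul]

theorem cho : T_CHO := by
  intro ε hε
  set δ : ℝ := min (1 / 4) (ε / 4) / 2 with hδ
  have hδ0 : 0 < δ := by
    rw [hδ]
    have : 0 < min (1 / 4 : ℝ) (ε / 4) := lt_min (by norm_num) (by linarith)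
    linarith
  have hδ1 : δ ≤ 1 / 8 := by
    rw [hδ]
    have : min (1 / 4 : ℝ) (ε / 4) ≤ 1 / 4 := min_le_left _ _
    linarith
  have hδ2 : δ ≤ ε / 4 := by
    rw [hδ]
    have : min (1 / 4 : ℝ) (ε / 4) ≤ ε / 4 := min_le_right _ _
    have h3 : 0 < min (1 / 4 : ℝ) (ε / 4) := lt_min (by norm_num) (by linarith)
    linarith
  have hr : (1 : ℝ) < 2 ^ (ε / 2) := Real.one_lt_rpow (by norm_num) (by linarith)
  have hlim := tendsto_pow_const_div_const_pow_of_one_lt 1 hr
  have hev : ∀ᶠ n : ℕ in atTop, (n : ℝ) ^ 1 / ((2 : ℝ) ^ (ε / 2)) ^ n < 1 / 2 :=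
    (hlim.eventually (gt_mem_nhds (by norm_num : (0 : ℝ) < 1 / 2)))
  obtain ⟨n1, hn1⟩ := eventually_atTop.mp hev
  refine ⟨δ, hδ0, by linarith, max n1 2, ?_⟩
  -- the lower half
  have main : ∀ n : ℕ, max n1 2 ≤ n → ∀ t : ℕ, t ≤ n / 2 → |(t : ℝ) - n / 2| ≤ δ * n →
      (2 : ℝ) ^ ((1 - ε) * n) < n.choose t := by
    intro n hn t ht htn
    have hn2 : 2 ≤ n := (le_max_right _ _).trans hn
    have hn0 : (2 : ℝ) ≤ n := by exact_mod_cast hn2
    have hb := hn1 n ((le_max_left _ _).trans hn)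
    have hpow : 0 < ((2 : ℝ) ^ (ε / 2)) ^ n := by positivity
    rw [pow_one, div_lt_iff₀ hpow] at hb
    have habs := (abs_le.mp htn).1
    have ht4 : n ≤ 4 * t + 3 := by
      have : (n : ℝ) / 2 - δ * n ≤ t := by linarith
      have h8 : (n : ℝ) ≤ 4 * t := by nlinarith
      have : n ≤ 4 * t := by exact_mod_cast h8
      omega
    have hc := choose_ratio n (n / 2 - t) t ht4
    rw [Nat.add_sub_cancel' ht] at hc
    have hm := middle n
    have hm' : (2 : ℝ) ^ n ≤ (n + 1) * (3 ^ (n / 2 - t) * n.choose t) := by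
      have : 2 ^ n ≤ (n + 1) * (3 ^ (n / 2 - t) * n.choose t) :=
        hm.trans (Nat.mul_le_mul_left _ hc)
      exact_mod_cast this
    -- 3 ^ (n/2 - t) ≤ 2 ^ (ε n / 2)
    have hexp : (3 : ℝ) ^ (n / 2 - t) ≤ ((2 : ℝ) ^ (ε / 2)) ^ n := by
      have h1 : ((n / 2 - t : ℕ) : ℝ) ≤ δ * n := by
        have h2 : ((n / 2 - t : ℕ) : ℝ) = ((n / 2 : ℕ) : ℝ) - t := by
          rw [Nat.cast_sub ht]
        have h3 : ((n / 2 : ℕ) : ℝ) ≤ (n : ℝ) / 2 := Nat.cast_div_le
        rw [h2]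
        linarith
      calc (3 : ℝ) ^ (n / 2 - t) ≤ (4 : ℝ) ^ (n / 2 - t) :=
            pow_le_pow_left₀ (by norm_num) (by norm_num) _
        _ = (2 : ℝ) ^ ((2 : ℝ) * ((n / 2 - t : ℕ) : ℝ)) := by
            rw [Real.rpow_mul (by norm_num), Real.rpow_natCast]
            norm_num
        _ ≤ (2 : ℝ) ^ ((ε / 2) * n) := by
            apply Real.rpow_le_rpow_of_exponent_le (by norm_num)
            nlinarith
        _ = ((2 : ℝ) ^ (ε / 2)) ^ n := by
            rw [Real.rpow_mul (by norm_num), Real.rpow_natCast]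
    have hX : ((2 : ℝ) ^ (ε / 2)) ^ n * ((2 : ℝ) ^ (ε / 2)) ^ n = (2 : ℝ) ^ (ε * n) := by
      rw [← mul_pow, ← Real.rpow_add (by norm_num), Real.rpow_mul (by norm_num),
        Real.rpow_natCast]
      congr 2
      ring
    have hY : (2 : ℝ) ^ ((1 - ε) * n) * (2 : ℝ) ^ (ε * n) = (2 : ℝ) ^ n := by
      rw [← Real.rpow_add (by norm_num), ← Real.rpow_natCast]
      congr 1
      ring
    have hC : (0 : ℝ) < n.choose t := by
      have : 0 < n.choose t := Nat.choose_pos (by omega)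
      exact_mod_cast this
    have hfin : (2 : ℝ) ^ n < (2 : ℝ) ^ (ε * n) * n.choose t := by
      rw [← hX]
      have hb' : (n : ℝ) + 1 < ((2 : ℝ) ^ (ε / 2)) ^ n := by linarith
      calc (2 : ℝ) ^ n ≤ (n + 1) * (3 ^ (n / 2 - t) * n.choose t) := hm'
        _ ≤ (n + 1) * (((2 : ℝ) ^ (ε / 2)) ^ n * n.choose t) := by gcongr
        _ < ((2 : ℝ) ^ (ε / 2)) ^ n * (((2 : ℝ) ^ (ε / 2)) ^ n * n.choose t) := by
            apply mul_lt_mul_of_pos_right hb'
            positivity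
        _ = _ := by ring
    have hZ : (0 : ℝ) < (2 : ℝ) ^ (ε * n) := by positivity
    rw [← hY, mul_comm] at hfin
    exact lt_of_mul_lt_mul_left hfin hZ.le
  intro n hn t htn
  rcases le_or_gt t (n / 2) with h | h
  · exact main n hn t h htn
  · have hn2 : 2 ≤ n := (le_max_right _ _).trans hn
    have htle : t ≤ n := by
      have h1 := (abs_le.mp htn).2
      have hn0 : (2 : ℝ) ≤ n := by exact_mod_cast hn2
      have : (t : ℝ) ≤ n := by nlinarith
      exact_mod_cast this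
    have h2 : n - t ≤ n / 2 := by omega
    have h3 : |((n - t : ℕ) : ℝ) - n / 2| ≤ δ * n := by
      rw [Nat.cast_sub htle]
      have : (n : ℝ) - t - n / 2 = -((t : ℝ) - n / 2) := by ring
      rw [this, abs_neg]
      exact htn
    have h4 := main n hn (n - t) h2 h3
    rwa [Nat.choose_symm htle] at h4

end Pool.Agent.H19.SYM
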