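import Pool.Agent.H60.SYM.Targets

namespace Pool.Agent.H19.SYM

open Finset Pool.Agent.H60.SYM

/-- sign of a bit -/
noncomputable def sg (b : ZMod 2) : ℝ := if b ≠ 0 then 1 else -1

theorem sum_sg {ι : Type} [Fintype ι] (z : ι → ZMod 2) :
    ∑ i, sg (z i) = 2 * (wt z : ℝ) - Fintype.card ι := by
  classical
  have h1 : ∀ i, sg (z i) = 2 * (if z i ≠ 0 then (1 : ℝ) else 0) - 1 := by
    intro i
    unfold sg
    split_ifs <;> norm_num
  simp_rw [h1]
  rw [sum_sub_distrib, ← mul_sum, sum_boole, sum_const, card_univ, nsmul_eq_mul, mul_one]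
  rfl

theorem mgf {ι : Type} [Fintype ι] [DecidableEq ι] (l : ℝ) :
    ∑ z : ι → ZMod 2, Real.exp (l * (2 * (wt z : ℝ) - Fintype.card ι)) =
      (2 * Real.cosh l) ^ Fintype.card ι := by
  have h1 : ∀ z : ι → ZMod 2, Real.exp (l * (2 * (wt z : ℝ) - Fintype.card ι)) =
      ∏ i, Real.exp (l * sg (z i)) := by
    intro z
    rw [← Real.exp_sum, ← mul_sum, sum_sg]
  simp_rw [h1]
  have h2 := Finset.prod_univ_sum (fun _ : ι => (univ : Finset (ZMod 2)))
    (fun _ b => Real.exp (l * sg b))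
  rw [Fintype.piFinset_univ] at h2
  rw [← h2, prod_const, card_univ]
  congr 1
  have h3 : (univ : Finset (ZMod 2)) = {0, 1} := by decide
  rw [h3, sum_pair (by decide)]
  have e0 : sg 0 = -1 := by simp [sg]
  have e1 : sg 1 = 1 := by simp [sg]
  rw [e0, e1, Real.cosh_eq]
  ring_nf

theorem hoef : T_HOEF := by
  intro ι _ _ a ha hN
  set N : ℝ := (Fintype.card ι : ℝ) with hNdef
  have hN0 : 0 < N := by
    rw [hNdef]
    exact_mod_cast hN
  set l : ℝ := 2 * a / N with hl
  have hl0 : 0 ≤ l := by positivity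
  set F := univ.filter fun z : ι → ZMod 2 => a ≤ |(wt z : ℝ) - Fintype.card ι / 2| with hF
  have hlow : ∀ z ∈ F, Real.exp (2 * l * a) ≤
      Real.exp (l * (2 * (wt z : ℝ) - N)) + Real.exp (-l * (2 * (wt z : ℝ) - N)) := by
    intro z hz
    rw [hF, mem_filter] at hz
    have h := hz.2
    rcases le_abs.mp h with h | h
    · have h1 : 2 * l * a ≤ l * (2 * (wt z : ℝ) - N) := by
        have : 2 * a ≤ 2 * (wt z : ℝ) - N := by
          rw [hNdef]
          linarith
        nlinarith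
      have := Real.exp_le_exp.mpr h1
      have := Real.exp_pos (-l * (2 * (wt z : ℝ) - N))
      linarith
    · have h1 : 2 * l * a ≤ -l * (2 * (wt z : ℝ) - N) := by
        have : 2 * a ≤ -(2 * (wt z : ℝ) - N) := by
          rw [hNdef]
          linarith
        nlinarith
      have := Real.exp_le_exp.mpr h1
      have := Real.exp_pos (l * (2 * (wt z : ℝ) - N))
      linarith
  have h1 : (F.card : ℝ) * Real.exp (2 * l * a) ≤
      ∑ z : ι → ZMod 2, (Real.exp (l * (2 * (wt z : ℝ) - N)) +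
        Real.exp (-l * (2 * (wt z : ℝ) - N))) := by
    calc (F.card : ℝ) * Real.exp (2 * l * a) = ∑ z ∈ F, Real.exp (2 * l * a) := by
          rw [sum_const, nsmul_eq_mul]
      _ ≤ ∑ z ∈ F, (Real.exp (l * (2 * (wt z : ℝ) - N)) +
        Real.exp (-l * (2 * (wt z : ℝ) - N))) := sum_le_sum hlow
      _ ≤ _ := sum_le_sum_of_subset_of_nonneg (subset_univ _) (fun z _ _ => by positivity)
  rw [sum_add_distrib, mgf, mgf, Real.cosh_neg] at h1
  have h2 : (2 * Real.cosh l) ^ Fintype.card ι ≤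
      2 ^ Fintype.card ι * Real.exp (N * (l ^ 2 / 2)) := by
    rw [mul_pow, hNdef, Real.exp_nat_mul]
    refine mul_le_mul_of_nonneg_left ?_ (by positivity)
    exact pow_le_pow_left₀ (Real.cosh_pos l).le (Real.cosh_le_exp_half_sq l) _
  have h3 : (F.card : ℝ) * Real.exp (2 * l * a) ≤
      2 * (2 ^ Fintype.card ι * Real.exp (N * (l ^ 2 / 2))) := by linarith
  have h4 : Real.exp (N * (l ^ 2 / 2)) =
      Real.exp (-(2 * a ^ 2 / N)) * Real.exp (2 * l * a) := by
    rw [← Real.exp_add]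
    congr 1
    rw [hl]
    field_simp
    ring
  rw [h4] at h3
  have h5 : (F.card : ℝ) * Real.exp (2 * l * a) ≤
      (2 * 2 ^ Fintype.card ι * Real.exp (-(2 * a ^ 2 / N))) * Real.exp (2 * l * a) := by
    linarith
  exact le_of_mul_le_mul_right h5 (Real.exp_pos _)

end Pool.Agent.H19.SYM
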