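import Pool.Agent.H60.SYM.Targets

namespace Pool.Agent.H19.SYM

open Finset Pool.Agent.H60.SYM

theorem comb_add {M n d : ℕ} (e : Fin M → Fin (d + 1) → Fin n) (y y' : Fin M → ZMod 2) :
    comb e (y + y') = comb e y + comb e y' := by
  funext v
  simp only [comb, Pi.add_apply]
  rw [← sum_add_distrib]
  refine sum_congr rfl (fun i _ => ?_)
  rw [← sum_add_distrib]
  refine sum_congr rfl (fun p _ => ?_)
  split_ifs <;> simp

theorem wt_add_le {ι : Type} [Fintype ι] (y y' : ι → ZMod 2) : wt (y + y') ≤ wt y + wt y' := by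
  classical
  unfold wt
  refine (card_le_card ?_).trans (card_union_le _ _)
  intro i hi
  simp only [mem_filter, mem_univ, true_and, mem_union, Pi.add_apply] at hi ⊢
  by_contra h
  push Not at h
  rw [h.1, h.2] at hi
  exact hi (by simp)

theorem zmod2_add {a b : ZMod 2} : a = 0 → b ≠ 0 → a + b ≠ 0 := by
  revert a b
  decide

theorem supp : T_SUPP := by
  classical
  intro n d M θ e h
  set Y : Finset (Fin M → ZMod 2) := univ.filter fun y => wt y ≤ θ ∧ comb e y = 0 with hY
  have hadd : ∀ y ∈ Y, ∀ y' ∈ Y, y + y' ∈ Y := by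
    intro y hy y' hy'
    simp only [hY, mem_filter, mem_univ, true_and] at hy hy' ⊢
    have h1 : comb e (y + y') = 0 := by
      rw [comb_add, hy.2, hy'.2, add_zero]
    have h2 : wt (y + y') ≤ 2 * θ := by
      have := wt_add_le y y'
      omega
    refine ⟨?_, h1⟩
    by_contra h3
    exact h _ (not_le.mp h3) h2 h1
  have h0 : (0 : Fin M → ZMod 2) ∈ Y := by
    simp only [hY, mem_filter, mem_univ, true_and]
    refine ⟨by simp [wt], ?_⟩
    funext v
    simp [comb]
  set J : Finset (Fin M) := univ.filter fun i => ∃ y ∈ Y, y i ≠ 0 with hJ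
  refine ⟨J, ?_, ?_⟩
  · have hhalf : ∀ i ∈ J, Y.card ≤ 2 * (Y.filter fun y => y i ≠ 0).card := by
      intro i hi
      obtain ⟨y0, hy0, hi0⟩ := (mem_filter.mp hi).2
      have h1 : (Y.filter fun y => ¬ (y i ≠ 0)).card ≤ (Y.filter fun y => y i ≠ 0).card := by
        refine card_le_card_of_injOn (fun y => y + y0) ?_ ?_
        · intro y hy
          simp only [coe_filter, Set.mem_ofPred_eq] at hy ⊢
          rw [not_not] at hy
          exact ⟨hadd y hy.1 y0 hy0, zmod2_add hy.2 hi0⟩
        · intro y _ y' _ hyy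
          exact add_right_cancel hyy
      have h2 := card_filter_add_card_filter_not (s := Y) (fun y => y i ≠ 0)
      omega
    have h1 : J.card * Y.card ≤ 2 * ∑ y ∈ Y, wt y := by
      have e1 : ∑ y ∈ Y, wt y = ∑ i : Fin M, (Y.filter fun y => y i ≠ 0).card := by
        simp only [wt, card_filter]
        rw [sum_comm]
      rw [e1]
      calc J.card * Y.card = ∑ i ∈ J, Y.card := by rw [sum_const, smul_eq_mul]
        _ ≤ ∑ i ∈ J, 2 * (Y.filter fun y => y i ≠ 0).card := sum_le_sum hhalf
        _ ≤ ∑ i : Fin M, 2 * (Y.filter fun y => y i ≠ 0).card :=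
            sum_le_sum_of_subset (subset_univ _)
        _ = 2 * ∑ i : Fin M, (Y.filter fun y => y i ≠ 0).card := by rw [mul_sum]
    have h2 : ∑ y ∈ Y, wt y ≤ Y.card * θ := by
      refine (sum_le_card_nsmul _ _ θ (fun y hy => ?_)).trans (by rw [smul_eq_mul])
      simp only [hY, mem_filter] at hy
      exact hy.2.1
    have hpos : 0 < Y.card := card_pos.mpr ⟨0, h0⟩
    have h3 : J.card * Y.card ≤ (2 * θ) * Y.card := by nlinarith
    exact Nat.le_of_mul_le_mul_right h3 hpos
  · intro y hy hc i hi
    by_contra hne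
    apply hi
    simp only [hJ, mem_filter, mem_univ, true_and]
    exact ⟨y, by simp only [hY, mem_filter, mem_univ, true_and]; exact ⟨hy, hc⟩, hne⟩

end Pool.Agent.H19.SYM
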