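import Pool.Agent.H60.SYM.Targets

namespace Pool.Agent.H19.SYM

open Finset Pool.Agent.H60.SYM

theorem toB_eq_iff (b : ZMod 2) (y : Bool) : toB b = y ↔ b = toZ y := by
  revert b y
  decide

theorem zmod2_key (a s c : ZMod 2) : a + s ≠ c ↔ s + 1 + c = a := by
  revert a s c
  decide

theorem viol_iff {m n d M T : ℕ} {P : Type} (e : Fin M → Fin (d + 1) → Fin n)
    (E : Fin m ≃ (Blocks M T × (Fin d → ZMod 2)) ⊕ P) (v₀ : Fin n) (c : Fin M → ZMod 2)
    (x : Fin n → Bool) (j : Fin m) (b : Blocks M T) (z : Fin d → ZMod 2)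
    (hj : E j = Sum.inl (b, z)) :
    Violates (inst e E v₀ c) x j ↔
      (∀ p : Fin d, z p = toZ (x (e b.1 p.succ))) ∧ ∑ p, toZ (x (e b.1 p)) ≠ c b.1 := by
  have h1 : Violates (inst e E v₀ c) x j ↔ ∀ p, pat (c b.1) z p = toZ (x (e b.1 p)) := by
    unfold Violates
    have h2 : ∀ v, inst e E v₀ c (j, v, x v) =
        decide (∃ p, e b.1 p = v ∧ toB (pat (c b.1) z p) ≠ x v) := by
      intro v
      simp only [inst, hj]
    simp only [h2, decide_eq_false_iff_not, not_exists, not_and, not_not]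
    constructor
    · intro h p
      exact (toB_eq_iff _ _).mp (h _ p rfl)
    · rintro h v p rfl
      exact (toB_eq_iff _ _).mpr (h p)
  rw [h1, Fin.forall_fin_succ]
  have h3 : (∀ p : Fin d, pat (c b.1) z p.succ = toZ (x (e b.1 p.succ))) ↔
      ∀ p : Fin d, z p = toZ (x (e b.1 p.succ)) := by
    simp [pat]
  rw [h3, and_comm]
  refine and_congr_right (fun hz => ?_)
  rw [Fin.sum_univ_succ]
  have h4 : ∑ p : Fin d, toZ (x (e b.1 p.succ)) = ∑ p, z p :=
    sum_congr rfl (fun p _ => (hz p).symm)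
  rw [h4, zmod2_key]
  simp [pat]

theorem vio : T_VIO := by
  classical
  intro m n d M T P e E v₀ c x _
  have hcard : T * (univ.filter fun i => ∑ p, toZ (x (e i p)) ≠ c i).card =
      Nat.card ({i : Fin M // ∑ p, toZ (x (e i p)) ≠ c i} × Fin T) := by
    rw [Nat.card_prod, Nat.card_eq_fintype_card, Nat.card_eq_fintype_card, Fintype.card_subtype,
      Fintype.card_fin, mul_comm]
  rw [hcard]
  symm
  have hE : ∀ (i : Fin M) (t : Fin T) (z : Fin d → ZMod 2),
      E (E.symm (Sum.inl ((i, t), z))) = Sum.inl ((i, t), z) := fun i t z => by simp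
  refine Nat.card_eq_of_bijective (fun it : {i : Fin M // ∑ p, toZ (x (e i p)) ≠ c i} × Fin T =>
    (⟨E.symm (Sum.inl ((it.1.1, it.2), fun p => toZ (x (e it.1.1 p.succ)))), by
      rw [viol_iff e E v₀ c x _ _ _ (hE _ _ _)]
      exact ⟨fun _ => rfl, it.1.2⟩⟩ : {j // Violates (inst e E v₀ c) x j})) ⟨?_, ?_⟩
  · rintro ⟨⟨i, hi⟩, t⟩ ⟨⟨i', hi'⟩, t'⟩ h
    have h1 := congrArg Subtype.val h
    simp only [EmbeddingLike.apply_eq_iff_eq, Sum.inl.injEq, Prod.mk.injEq] at h1
    obtain ⟨⟨rfl, rfl⟩, -⟩ := h1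
    rfl
  · rintro ⟨j, hj⟩
    rcases hEj : E j with ⟨⟨i, t⟩, z⟩ | p
    · have h1 := (viol_iff e E v₀ c x j (i, t) z hEj).mp hj
      refine ⟨(⟨i, h1.2⟩, t), ?_⟩
      apply Subtype.ext
      simp only
      rw [Equiv.symm_apply_eq, hEj]
      have : z = fun p => toZ (x (e i p.succ)) := funext h1.1
      rw [this]
    · exfalso
      have h1 := hj v₀
      simp only [inst, hEj] at h1
      simp at h1

end Pool.Agent.H19.SYM
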